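import Pool.Agent.Helper19.TW.Base

/-!
# Boolean packings of products
-/

set_option autoImplicit false
set_option linter.unusedSectionVars false

namespace Pool.Agent.Helper28.TW

open Pool.Agent.Helper28.BPack Pool.Agent.Helper19.TW

/-- A family indexed by any finite type gives a packing. -/
theorem bp_of_family {P : Type} [PartialOrder P] {one : P} {ι : Type} [Finite ι] (n : ι → ℕ)
    (φ : ∀ i : ι, Set (Fin (n i)) → P)
    (h1 : ∀ i, Function.Injective (φ i))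
    (h2 : ∀ i (a b : Set (Fin (n i))), a ⋖ b → φ i a ⋖ φ i b)
    (h3 : ∀ i, Order.height one ≤ Order.height (φ i ⊥) + Order.height (φ i ⊤))
    (h4 : ∀ x : P, ∃ i a, φ i a = x)
    (h5 : ∀ i a i' a', φ i a = φ i' a' → i = i' ∧ HEq a a') :
    BooleanPacking P one := by
  obtain ⟨t, ⟨σ⟩⟩ := Finite.exists_equiv_fin ι
  refine ⟨t, fun i => n (σ.symm i), fun i => φ (σ.symm i), fun i => h1 _, fun i => h2 _,
    fun i => h3 _, ?_⟩
  intro x
  obtain ⟨i, a, ha⟩ := h4 x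
  obtain ⟨i, rfl⟩ := σ.symm.surjective i
  refine ⟨⟨i, a⟩, ha, ?_⟩
  rintro ⟨i', a'⟩ h'
  obtain ⟨e1, e2⟩ := h5 _ _ _ _ ((h' : φ (σ.symm i') a' = x).trans ha.symm)
  have e3 : i' = i := σ.symm.injective e1
  subst e3
  have e4 : a' = a := eq_of_heq e2
  subst e4
  rfl

theorem ch_prod {K1 K2 : Type} [Lattice K1] [Lattice K2] {p q : K1 × K2} {n : ℕ}
    (h : Ch p q n) : ∃ n1 n2, n ≤ n1 + n2 ∧ Ch p.1 q.1 n1 ∧ Ch p.2 q.2 n2 := by
  induction h with
  | nil f => exact ⟨0, 0, by omega, Ch.nil _, Ch.nil _⟩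
  | @cons f g y n h t ih =>
    obtain ⟨n1, n2, hn, c1, c2⟩ := ih
    have h1 : f.1 ≤ g.1 := h.le.1
    have h2 : f.2 ≤ g.2 := h.le.2
    rcases h1.lt_or_eq with h3 | h3
    · rcases h2.lt_or_eq with h4 | h4
      · exact ⟨n1 + 1, n2 + 1, by omega, Ch.cons h3 c1, Ch.cons h4 c2⟩
      · exact ⟨n1 + 1, n2, by omega, Ch.cons h3 c1, h4 ▸ c2⟩
    · rcases h2.lt_or_eq with h4 | h4
      · exact ⟨n1, n2 + 1, by omega, h3 ▸ c1, Ch.cons h4 c2⟩
      · exact absurd (Prod.ext h3 h4) h.ne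

theorem ch_left {K1 K2 : Type} [Lattice K1] [Lattice K2] {x y : K1} {n : ℕ} (h : Ch x y n)
    (z : K2) : Ch (x, z) (y, z) n := by
  induction h with
  | nil f => exact Ch.nil _
  | cons h t ih => exact Ch.cons (Prod.mk_lt_mk.mpr (Or.inl ⟨h, le_rfl⟩)) ih

theorem ch_right {K1 K2 : Type} [Lattice K1] [Lattice K2] {x y : K2} {n : ℕ} (h : Ch x y n)
    (z : K1) : Ch (z, x) (z, y) n := by
  induction h with
  | nil f => exact Ch.nil _
  | cons h t ih => exact Ch.cons (Prod.mk_lt_mk.mpr (Or.inr ⟨le_rfl, h⟩)) ih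

theorem ch_of_height {K : Type} [Lattice K] [BoundedOrder K] [Finite K] (x : K) :
    ∃ f, Ch f x (rk x) := by
  have h : Order.height x = (rk x : ℕ∞) := (coe_rk x).symm
  obtain ⟨p, hp, hl⟩ := Order.exists_series_of_height_eq_coe x h
  refine ⟨p.head, ?_⟩
  have h1 := ch_of_series p
  rw [hp, hl] at h1
  exact h1

theorem rk_prod {K1 K2 : Type} [Lattice K1] [BoundedOrder K1] [Finite K1] [Lattice K2]
    [BoundedOrder K2] [Finite K2] (x : K1) (y : K2) :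
    rk ((x, y) : K1 × K2) = rk x + rk y := by
  apply le_antisymm
  · obtain ⟨f, hf⟩ := ch_of_height ((x, y) : K1 × K2)
    obtain ⟨n1, n2, hn, c1, c2⟩ := ch_prod hf
    have h1 : (n1 : ℕ∞) ≤ (rk x : ℕ∞) := by
      rw [coe_rk]
      exact le_trans (by simp) c1.height_le
    have h2 : (n2 : ℕ∞) ≤ (rk y : ℕ∞) := by
      rw [coe_rk]
      exact le_trans (by simp) c2.height_le
    have h3 : n1 ≤ rk x := by exact_mod_cast h1
    have h4 : n2 ≤ rk y := by exact_mod_cast h2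
    omega
  · obtain ⟨f, hf⟩ := ch_of_height x
    obtain ⟨g, hg⟩ := ch_of_height y
    have h1 := (ch_left (K2 := K2) hf g).height_le
    have h2 := (ch_right (K1 := K1) hg x).height_le
    have h3 : ((rk x + rk y : ℕ) : ℕ∞) ≤ ((rk ((x, y) : K1 × K2) : ℕ) : ℕ∞) := by
      rw [coe_rk]
      push_cast
      refine le_trans ?_ h2
      gcongr
      exact le_trans (by simp) h1
    exact_mod_cast h3

/-- The product of two packings. -/
theorem prod_packing {K1 K2 : Type} [Lattice K1] [BoundedOrder K1] [Fintype K1] [Lattice K2]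
    [BoundedOrder K2] [Fintype K2] (h1 : BooleanPacking K1 ⊤) (h2 : BooleanPacking K2 ⊤) :
    BooleanPacking (K1 × K2) ⊤ := by
  obtain ⟨t1, n1, φ1, a1, b1, c1, d1⟩ := h1
  obtain ⟨t2, n2, φ2, a2, b2, c2, d2⟩ := h2
  have e1 : ∀ {n m : ℕ} (S T : Set (Fin (n + m))),
      {j : Fin n | Fin.castAdd m j ∈ S} = {j : Fin n | Fin.castAdd m j ∈ T} →
      {j : Fin m | Fin.natAdd n j ∈ S} = {j : Fin m | Fin.natAdd n j ∈ T} → S = T := by
    intro n m S T h1 h2
    ext j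
    refine Fin.addCases (fun j => ?_) (fun j => ?_) j
    · exact Set.ext_iff.mp h1 j
    · exact Set.ext_iff.mp h2 j
  apply bp_of_family (ι := Fin t1 × Fin t2) (fun i => n1 i.1 + n2 i.2)
    (fun i S => (φ1 i.1 {j | Fin.castAdd (n2 i.2) j ∈ S}, φ2 i.2 {j | Fin.natAdd (n1 i.1) j ∈ S}))
  · rintro ⟨i1, i2⟩ S T h
    have h3 := a1 i1 (Prod.ext_iff.mp h).1
    have h4 := a2 i2 (Prod.ext_iff.mp h).2
    exact e1 S T h3 h4
  · rintro ⟨i1, i2⟩ S T h
    obtain ⟨j, hj, rfl⟩ := Set.covBy_iff_exists_insert.mp h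
    clear h
    revert hj
    refine Fin.addCases (fun j => ?_) (fun j => ?_) j
    · intro hj
      have h5 : {k : Fin (n1 i1) | Fin.castAdd (n2 i2) k ∈ insert (Fin.castAdd (n2 i2) j) S} =
          insert j {k : Fin (n1 i1) | Fin.castAdd (n2 i2) k ∈ S} := by
        ext k
        simp [Fin.ext_iff]
      have h6 : {k : Fin (n2 i2) | Fin.natAdd (n1 i1) k ∈ insert (Fin.castAdd (n2 i2) j) S} =
          {k : Fin (n2 i2) | Fin.natAdd (n1 i1) k ∈ S} := by
        ext k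
        simp only [Set.mem_insert_iff, Set.mem_ofPred_eq, or_iff_right_iff_imp]
        intro hk
        exfalso
        have := congrArg Fin.val hk
        simp at this
        omega
      change (φ1 i1 _, φ2 i2 _) ⋖ (φ1 i1 _, φ2 i2 _)
      rw [h5, h6, Prod.mk_covBy_mk_iff_left]
      exact b1 i1 _ _ (Set.covBy_insert hj)
    · intro hj
      have h5 : {k : Fin (n1 i1) | Fin.castAdd (n2 i2) k ∈ insert (Fin.natAdd (n1 i1) j) S} =
          {k : Fin (n1 i1) | Fin.castAdd (n2 i2) k ∈ S} := by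
        ext k
        simp only [Set.mem_insert_iff, Set.mem_ofPred_eq, or_iff_right_iff_imp]
        intro hk
        exfalso
        have := congrArg Fin.val hk
        simp at this
        omega
      have h6 : {k : Fin (n2 i2) | Fin.natAdd (n1 i1) k ∈ insert (Fin.natAdd (n1 i1) j) S} =
          insert j {k : Fin (n2 i2) | Fin.natAdd (n1 i1) k ∈ S} := by
        ext k
        simp [Fin.ext_iff]
      change (φ1 i1 _, φ2 i2 _) ⋖ (φ1 i1 _, φ2 i2 _)
      rw [h5, h6, Prod.mk_covBy_mk_iff_right]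
      exact b2 i2 _ _ (Set.covBy_insert hj)
  · rintro ⟨i1, i2⟩
    have h3 := c1 i1
    have h4 := c2 i2
    have h5 : {j : Fin (n1 i1) | Fin.castAdd (n2 i2) j ∈ (⊥ : Set (Fin (n1 i1 + n2 i2)))} = ⊥ := by
      ext k; simp
    have h6 : {j : Fin (n2 i2) | Fin.natAdd (n1 i1) j ∈ (⊥ : Set (Fin (n1 i1 + n2 i2)))} = ⊥ := by
      ext k; simp
    have h7 : {j : Fin (n1 i1) | Fin.castAdd (n2 i2) j ∈ (⊤ : Set (Fin (n1 i1 + n2 i2)))} = ⊤ := by
      ext k; simp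
    have h8 : {j : Fin (n2 i2) | Fin.natAdd (n1 i1) j ∈ (⊤ : Set (Fin (n1 i1 + n2 i2)))} = ⊤ := by
      ext k; simp
    change Order.height ((⊤, ⊤) : K1 × K2) ≤ Order.height ((φ1 i1 _, φ2 i2 _) : K1 × K2) +
      Order.height ((φ1 i1 _, φ2 i2 _) : K1 × K2)
    rw [h5, h6, h7, h8, ← coe_rk, ← coe_rk, ← coe_rk, rk_prod, rk_prod, rk_prod]
    rw [← coe_rk, ← coe_rk, ← coe_rk] at h3 h4
    norm_cast at h3 h4 ⊢
    omega
  · rintro ⟨x1, x2⟩
    obtain ⟨⟨i1, S1⟩, hS1, -⟩ := d1 x1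
    obtain ⟨⟨i2, S2⟩, hS2, -⟩ := d2 x2
    refine ⟨(i1, i2), {j | Fin.addCases (fun k => k ∈ S1) (fun k => k ∈ S2) j}, ?_⟩
    apply Prod.ext
    · change φ1 i1 _ = x1
      rw [← hS1]
      congr 1
      ext k
      simp
    · change φ2 i2 _ = x2
      rw [← hS2]
      congr 1
      ext k
      simp
  · rintro ⟨i1, i2⟩ S ⟨i1', i2'⟩ S' h
    have h3 : φ1 i1 _ = φ1 i1' _ := (Prod.ext_iff.mp h).1
    have h4 : φ2 i2 _ = φ2 i2' _ := (Prod.ext_iff.mp h).2
    obtain ⟨p1, -, q1⟩ := d1 (φ1 i1' {j | Fin.castAdd (n2 i2') j ∈ S'})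
    obtain ⟨p2, -, q2⟩ := d2 (φ2 i2' {j | Fin.natAdd (n1 i1') j ∈ S'})
    have h5 := (q1 ⟨i1, _⟩ h3).trans (q1 ⟨i1', _⟩ rfl).symm
    have h6 := (q2 ⟨i2, _⟩ h4).trans (q2 ⟨i2', _⟩ rfl).symm
    obtain ⟨h7, h8⟩ := Sigma.mk.inj_iff.1 h5
    obtain ⟨h9, h10⟩ := Sigma.mk.inj_iff.1 h6
    change i1 = i1' at h7
    change i2 = i2' at h9
    subst h7
    subst h9
    exact ⟨rfl, heq_of_eq (e1 S S' (eq_of_heq h8) (eq_of_heq h10))⟩

end Pool.Agent.Helper28.TW
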