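import Pool.Agent.Helper19.TW.Base
import Pool.Agent.Helper28.BPack.Main

/-!
# Packings of upper intervals and locally free lifts
-/

set_option autoImplicit false
set_option linter.unusedSectionVars false

namespace Pool.Agent.Helper28.TW

open Pool.Agent.Helper28.BPack Pool.Agent.Helper19.TW

section

variable {L : Type} [Lattice L] [BoundedOrder L] [Finite L] [IsUpperModularLattice L]

/-- A saturated chain. -/
theorem exists_ch (y : L) : ∀ x : L, x ≤ y → Ch x y (rk y - rk x) := by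
  intro x
  induction x using WellFoundedGT.induction with
  | ind x ih =>
    intro hxy
    rcases hxy.lt_or_eq with h | rfl
    · obtain ⟨p, hxp, hpy⟩ := exists_covBy_le_of_lt h
      have h1 := ih p hxp.lt hpy
      have h2 := rk_covBy hxp
      have h3 := rk_mono hpy
      have h4 : rk y - rk x = (rk y - rk p) + 1 := by omega
      rw [h4]
      exact Ch.cons hxp.lt h1
    · rw [Nat.sub_self]
      exact Ch.nil _

theorem ch_Ici {e x y : L} {n : ℕ} (h : Ch x y n) : ∀ (hx : e ≤ x) (hy : e ≤ y),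
    Ch (⟨x, hx⟩ : Set.Ici e) ⟨y, hy⟩ n := by
  induction h with
  | nil f => intro _ _; exact Ch.nil _
  | @cons f g y n h t ih =>
    intro hx hy
    exact Ch.cons (Subtype.mk_lt_mk.mpr h) (ih (hx.trans h.le) hy)

theorem ch_val {e : L} {x y : Set.Ici e} {n : ℕ} (h : Ch x y n) : Ch (x : L) (y : L) n := by
  induction h with
  | nil f => exact Ch.nil _
  | cons h t ih => exact Ch.cons h ih

theorem height_Ici {e : L} (y : Set.Ici e) :
    Order.height y + (rk e : ℕ∞) = (rk (y : L) : ℕ∞) := by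
  have hey : e ≤ (y : L) := y.2
  have h0 := rk_mono hey
  have h1 : Order.height y = ((rk (y : L) - rk e : ℕ) : ℕ∞) := by
    apply le_antisymm
    · rw [Order.height_le_iff']
      intro p hp
      have hc := ch_val (ch_of_series p)
      have h2 := hc.height_le
      rw [← coe_rk, ← coe_rk, hp] at h2
      have h3 : rk (p.head : L) + p.length ≤ rk (y : L) := by exact_mod_cast h2
      have h4 : rk e ≤ rk (p.head : L) := rk_mono p.head.2
      exact_mod_cast (by omega : p.length ≤ rk (y : L) - rk e)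
    · have h2 := (ch_Ici (exists_ch (y : L) e hey) le_rfl hey).height_le
      exact le_trans (by simp) h2
  rw [h1]
  exact_mod_cast (by omega : rk (y : L) - rk e + rk e = rk (y : L))

theorem covBy_val {e : L} {x y : Set.Ici e} (h : x ⋖ y) : (x : L) ⋖ (y : L) := by
  refine ⟨h.lt, ?_⟩
  intro z hxz hzy
  have hz : e ≤ z := le_trans x.2 hxz.le
  exact h.2 (show x < ⟨z, hz⟩ from hxz) (show (⟨z, hz⟩ : Set.Ici e) < y from hzy)

/-- A packing of the upper interval in the format of the problem gives one in the internal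
format. -/
theorem hasPack_of_Ici (hat : ∀ x : L, ∃ s : Finset L, (∀ a ∈ s, IsAtom a) ∧ s.sup id = x)
    (e : L) (h : BooleanPacking (Set.Ici e) ⟨⊤, le_top⟩) : HasPack e := by
  classical
  obtain ⟨t, n, φ, h1, h2, h3, h4⟩ := h
  have hex : ∀ i, ∃ a : Fin (n i) → L, (∀ j, IsAtom (a j)) ∧
      ∀ B : Finset (Fin (n i)), (φ i (B : Set (Fin (n i))) : L) = (φ i ∅ : L) ⊔ B.sup a ∧
        rk (φ i (B : Set (Fin (n i))) : L) = rk (φ i ∅ : L) + B.card := by
    intro i
    exact exists_atoms hat (fun S => (φ i S : L)) (fun S T hST => h1 i (Subtype.ext hST))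
      (fun S T hST => covBy_val (h2 i S T hST))
  choose a ha haB using hex
  have hval : ∀ i (B : Finset (Fin (n i))),
      (⟨(φ i ∅ : L), n i, a i⟩ : Pc L).val B = (φ i (B : Set (Fin (n i))) : L) := by
    intro i B
    exact (haB i B).1.symm
  refine ⟨Fin t, inferInstance, fun i => ⟨(φ i ∅ : L), n i, a i⟩, ?_, ?_, ?_, ?_, ?_⟩
  · intro i
    apply good_of_rk (ha i)
    rw [hval i Finset.univ, (haB i Finset.univ).2, Finset.card_univ, Fintype.card_fin]
  · intro i
    exact (φ i ∅).2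
  · intro i
    have h5 := h3 i
    rw [hval i Finset.univ, Finset.coe_univ]
    have h6 := height_Ici (⟨⊤, le_top⟩ : Set.Ici e)
    have h7 := height_Ici (φ i ⊥)
    have h8 := height_Ici (φ i ⊤)
    have h9 : ((rk (⊤ : L) : ℕ) : ℕ∞) + (rk e : ℕ∞) ≤
        (rk (φ i ⊥ : L) : ℕ∞) + (rk (φ i ⊤ : L) : ℕ∞) := by
      have h10 : ((rk (⊤ : L) : ℕ) : ℕ∞) =
          Order.height (⟨⊤, le_top⟩ : Set.Ici e) + (rk e : ℕ∞) := h6.symm
      rw [← h7, ← h8, h10]
      calc Order.height (⟨⊤, le_top⟩ : Set.Ici e) + (rk e : ℕ∞) + (rk e : ℕ∞)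
          ≤ (Order.height (φ i ⊥) + Order.height (φ i ⊤)) + (rk e : ℕ∞) + (rk e : ℕ∞) := by
            gcongr
        _ = Order.height (φ i ⊥) + (rk e : ℕ∞) + (Order.height (φ i ⊤) + (rk e : ℕ∞)) := by
            ring
    exact_mod_cast h9
  · intro z hz
    obtain ⟨⟨i, S⟩, hS, -⟩ := h4 ⟨z, hz⟩
    refine ⟨i, Finset.univ.filter (fun j => j ∈ S), ?_⟩
    rw [hval]
    have h5 : ((Finset.univ.filter (fun j => j ∈ S) : Finset (Fin (n i))) : Set (Fin (n i))) = S := by
      ext j; simp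
    rw [h5]
    exact congrArg Subtype.val hS
  · intro i B i' B' hB
    rw [hval, hval] at hB
    obtain ⟨p, -, hp⟩ := h4 (φ i' (B' : Set (Fin (n i'))))
    have h5 := (hp ⟨i, (B : Set (Fin (n i)))⟩ (Subtype.ext hB)).trans
      (hp ⟨i', (B' : Set (Fin (n i')))⟩ rfl).symm
    obtain ⟨h6, h7⟩ := Sigma.mk.inj_iff.1 h5
    subst h6
    refine ⟨rfl, heq_of_eq ?_⟩
    exact Finset.coe_injective (eq_of_heq h7)

end

/-- **Locally free lifts.** -/
theorem lift_packing {L : Type} [Lattice L] [BoundedOrder L] [Fintype L] [IsUpperModularLattice L]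
    (hat : ∀ x : L, ∃ s : Finset L, (∀ a ∈ s, IsAtom a) ∧ s.sup id = x) (e : L) (he : IsAtom e)
    (hfree : ∀ C : Finset L, (∀ b ∈ C, IsAtom b ∧ ¬ e ≤ b) → e ≤ C.sup id →
      Order.height (⊤ : L) + 2 ≤ 2 * (C.card : ℕ∞))
    (h : BooleanPacking (Set.Ici e) ⟨⊤, le_top⟩) : BooleanPacking L ⊤ := by
  have h1 : HasPack (⊥ ⊔ e) := by
    rw [bot_sup_eq]
    exact hasPack_of_Ici hat e h
  refine (HasPack.lift hat he (fun h => he.1 (le_bot_iff.mp h)) ?_ h1).to_packing
  intro C hC1 hC2 hC3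
  have h2 := hfree C (fun b hb => ⟨hC1 b hb, by have := hC2 b hb; rwa [bot_sup_eq] at this⟩)
    (by rwa [bot_sup_eq] at hC3)
  rw [← coe_rk] at h2
  have h3 : rk (⊤ : L) + 2 ≤ 2 * C.card := by exact_mod_cast h2
  rw [rk_bot]
  omega

/-- **A flag of locally free atoms.** -/
theorem flag_packing {L : Type} [Lattice L] [BoundedOrder L] [Fintype L] [IsUpperModularLattice L]
    (hat : ∀ x : L, ∃ s : Finset L, (∀ a ∈ s, IsAtom a) ∧ s.sup id = x) (m : ℕ) (e : ℕ → L)
    (he : ∀ j < m, IsAtom (e j) ∧ ¬ e j ≤ (Finset.range j).sup e ∧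
      ∀ C : Finset L, (∀ b ∈ C, IsAtom b ∧ ¬ e j ≤ (Finset.range j).sup e ⊔ b) →
        e j ≤ (Finset.range j).sup e ⊔ C.sup id →
          Order.height (⊤ : L) + 2 ≤ 2 * (C.card : ℕ∞) + j)
    (h : BooleanPacking (Set.Ici ((Finset.range m).sup e)) ⟨⊤, le_top⟩) : BooleanPacking L ⊤ := by
  have hrke := rk_range_sup m e (fun j hj => (he j hj).1) (fun j hj => (he j hj).2.1)
  apply HasPack.to_packing
  apply hasPack_flag hat m e (fun j hj => (he j hj).1) (fun j hj => (he j hj).2.1)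
  · intro j hj C hC1 hC2 hC3
    have h1 := (he j hj).2.2 C (fun b hb => ⟨hC1 b hb, hC2 b hb⟩) hC3
    rw [← coe_rk] at h1
    have h2 : rk (⊤ : L) + 2 ≤ 2 * C.card + j := by exact_mod_cast h1
    rw [hrke j (by omega)]
    omega
  · exact hasPack_of_Ici hat _ h

end Pool.Agent.Helper28.TW
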